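import Pool.Agent.MP_b5e119_nt.G42X.Defs
import Pool.Agent.MP_b5e119_nt.G42.LFN

/-! Row LFNX: `L(σ, χ)` as the limit of its real partial sums. -/

namespace Pool.Agent.G42

open Finset Filter Topology Pool.Agent.G60
open Pool.Agent.G27 (re EX)
open Pool.Agent.MP_48b1c3_nt.H54

theorem lfnx_row : LFNX_s := by
  intro p _ χ σ h2 h1 hσ _
  have hv : ∀ n : ℕ, χ (n : ZMod p) = (re χ n : ℂ) := fun n => (G27.re_coe h2 n).symm
  have h0 : 0 < σ := by linarith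
  rw [lbound_LFunction_eq χ h1 (by simpa using h0)]
  have t := lfn_tend (a := fun n => χ n) (lbound_char_shift χ h1) h0
  obtain ⟨G, hG⟩ : ∃ G, G = lbound_G (fun n : ℕ => χ n) σ := ⟨_, rfl⟩
  rw [← hG] at t ⊢
  have t' : Tendsto (fun N : ℕ => ((∑ n ∈ Icc 1 N, (re χ n : ℝ) * (n : ℝ) ^ (-σ) : ℝ) : ℂ))
      atTop (𝓝 G) := by
    refine t.congr fun N => ?_
    rw [Complex.ofReal_sum]
    exact sum_congr rfl fun n _ => by rw [hv, Complex.ofReal_mul, Complex.ofReal_intCast]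
  have tr : Tendsto (fun N : ℕ => ∑ n ∈ Icc 1 N, (re χ n : ℝ) * (n : ℝ) ^ (-σ)) atTop
      (𝓝 G.re) := by
    simpa only [Function.comp_def, Complex.ofReal_re] using
      (Complex.continuous_re.tendsto G).comp t'
  have tc : Tendsto (fun N : ℕ => ((∑ n ∈ Icc 1 N, (re χ n : ℝ) * (n : ℝ) ^ (-σ) : ℝ) : ℂ))
      atTop (𝓝 (G.re : ℂ)) := (Complex.continuous_ofReal.tendsto _).comp tr
  exact ⟨G.re, tendsto_nhds_unique t' tc, tr⟩

end Pool.Agent.G42
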