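import Pool.Agent.MP_b5e119_nt.G42X.Defs
import Pool.Agent.MP_b5e119_nt.G42.POL

/-! Row POLX: without a real zero on `[β, 1)` the value `L(β, χ)` is `≥ 0`. -/

namespace Pool.Agent.G42

open Finset Filter Topology Pool.Agent.G60
open Pool.Agent.G27 (re EX)

theorem polx_row (hLFN : LFNX_s) : POLX_s := by
  intro p _ χ β hq h1 hβ hβ1 hz
  by_contra hneg
  have hneg : (DirichletCharacter.LFunction χ β).re < 0 := not_le.1 hneg
  have hc : Continuous fun σ : ℝ => (DirichletCharacter.LFunction χ σ).re :=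
    Complex.continuous_re.comp
      ((DirichletCharacter.differentiable_LFunction h1).continuous.comp Complex.continuous_ofReal)
  have h2 : 0 ≤ (DirichletCharacter.LFunction χ ((2 : ℝ) : ℂ)).re := by
    obtain ⟨L, hL, t⟩ := hLFN p χ 2 hq h1 (by norm_num) le_rfl
    rw [hL, Complex.ofReal_re]
    have g1 : ((re χ 1 : ℤ) : ℝ) = 1 := by simp [re]
    have gg : ∀ n : ℕ, (-1 : ℝ) ≤ (re χ n : ℝ) := fun n => by
      exact_mod_cast (abs_le.1 (G27.abs_re_le χ n)).1
    refine ge_of_tendsto' (t.comp (tendsto_add_atTop_nat 1)) fun N => ?_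
    exact le_trans (by positivity) (pol_two (g := fun n => (re χ n : ℝ)) g1 gg N)
  obtain ⟨σ, ⟨a1, a2⟩, hσ⟩ := intermediate_value_Icc (show β ≤ 2 by linarith) hc.continuousOn
    (show (0 : ℝ) ∈ Set.Icc _ _ from ⟨hneg.le, h2⟩)
  obtain ⟨L, hL, -⟩ := hLFN p χ σ hq h1 (by linarith) a2
  have h0 : DirichletCharacter.LFunction χ σ = 0 := by
    have : L = 0 := by simpa only [hL, Complex.ofReal_re] using hσ
    rw [hL, this, Complex.ofReal_zero]
  rcases lt_or_ge σ 1 with h | h
  · exact hz σ a1 h h0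
  · exact DirichletCharacter.LFunction_ne_zero_of_one_le_re χ (Or.inl h1) (by simpa using h) h0

end Pool.Agent.G42
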