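import Pool.Agent.MP_b5e119_nt.G42X.RQA
import Pool.Agent.MP_b5e119_nt.G42.RAA

/-! Row RAAX: the mean value of `1 * χ` on short ranges. -/

namespace Pool.Agent.G42

open Finset Filter Topology Pool.Agent.G60
open Pool.Agent.G27 (re EX)

theorem raax_row (hH : HYP_s) (hB : G27.BURGG_s) (hT : TAIL_s) : RAAX_s := by
  obtain ⟨κ, hκ, hκ1, p₁, hB⟩ := hB
  have ev1 : ∀ᶠ p : ℕ in atTop, (2 : ℝ) ≤ (p : ℝ) ^ (1 / 200 : ℝ) :=
    ((tendsto_rpow_atTop (by norm_num)).comp tendsto_natCast_atTop_atTop).eventually_ge_atTop _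
  have ev2 : ∀ᶠ p : ℕ in atTop, (11 + 4 / (κ / 4) : ℝ) ≤ (p : ℝ) ^ (κ / 4) :=
    ((tendsto_rpow_atTop (by positivity)).comp tendsto_natCast_atTop_atTop).eventually_ge_atTop _
  obtain ⟨p₀, hp₀⟩ := eventually_atTop.1 (ev1.and (ev2.and
    ((eventually_ge_atTop p₁).and (eventually_ge_atTop 3))))
  refine ⟨κ / 2, by positivity, p₀, fun p _ hp χ q2 q1 L hlim x hx1 hxp => ?_⟩
  obtain ⟨h1, h2, h3, h4⟩ := hp₀ p hp
  have hp1 : (1 : ℝ) ≤ p := by exact_mod_cast (by omega : 1 ≤ p)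
  have hp0 : (0 : ℝ) < p := by linarith
  obtain ⟨t, ht⟩ : ∃ t : ℝ, t = (p : ℝ) ^ (1 / 200 : ℝ) := ⟨_, rfl⟩
  rw [← ht] at h1
  have ht0 : 0 < t := by linarith
  have ht1 : 1 ≤ t := by linarith
  have h64 : (p : ℝ) ^ (0.32 : ℝ) = t ^ 64 := by
    rw [ht, ← Real.rpow_natCast, ← Real.rpow_mul hp0.le]; norm_num
  have h66 : (p : ℝ) ^ (0.33 : ℝ) = t ^ 66 := by
    rw [ht, ← Real.rpow_natCast, ← Real.rpow_mul hp0.le]; norm_num
  rw [h66] at hx1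
  obtain ⟨δ, hδ⟩ : ∃ δ : ℝ, δ = (p : ℝ) ^ (-κ) := ⟨_, rfl⟩
  have hδ0 : 0 < δ := by rw [hδ]; positivity
  have hδt : 1 ≤ δ * t := by
    rw [hδ, ht, ← Real.rpow_add hp0]
    exact Real.one_le_rpow hp1 (by linarith)
  have hδ3 : (p : ℝ) / ((p ^ 2 : ℕ) : ℝ) ≤ 5 * δ := by
    have e : (p : ℝ) / ((p ^ 2 : ℕ) : ℝ) = (p : ℝ) ^ (-1 : ℝ) := by
      rw [Real.rpow_neg_one]; push_cast; field_simp
    have : (p : ℝ) ^ (-1 : ℝ) ≤ δ := hδ ▸ Real.rpow_le_rpow_of_exponent_le hp1 (by linarith)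
    rw [e]; linarith
  have hl2 : Real.log ((p ^ 2 : ℕ) : ℝ) = 2 * Real.log p := by
    push_cast; rw [Real.log_pow]; norm_num
  obtain ⟨U, hU⟩ : ∃ U : ℕ, U = ⌈t ^ 65⌉₊ := ⟨_, rfl⟩
  have h65 : 1 ≤ t ^ 65 := one_le_pow₀ ht1
  have hU1 : t ^ 65 ≤ U := by rw [hU]; exact Nat.le_ceil _
  have hU2 : (U : ℝ) < t ^ 65 + 1 := by rw [hU]; exact Nat.ceil_lt_add_one (by positivity)
  have e66 : t ^ 66 = t ^ 65 * t := by ring
  have h66' : 2 * t ^ 65 ≤ t ^ 66 := by rw [e66]; nlinarith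
  have hUx' : (U : ℝ) ≤ x := by linarith
  have hUx : U ≤ x := by exact_mod_cast hUx'
  have hU0' : (0 : ℝ) < U := by linarith
  have hU0 : 0 < U := by exact_mod_cast hU0'
  have hx0 : (0 : ℝ) < x := by linarith
  have hxp' : (x : ℝ) ≤ p := by exact_mod_cast hxp
  have hsum : ∀ N, U ≤ N → |∑ n ∈ Icc 1 N, (re χ n : ℝ)| ≤ δ * N := by
    intro N hN
    have c1 : (U : ℝ) ≤ N := by exact_mod_cast hN
    have c2 : t ^ 64 ≤ t ^ 65 := pow_le_pow_right₀ ht1 (by norm_num)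
    have := hB p h3 χ q2 q1 1 N (by rw [h64]; linarith)
    rw [hδ, mul_comm, ← Finset.Ico_add_one_right_eq_Icc, sum_Ico_eq_sum_range, Nat.add_sub_cancel]
    exact this
  have hh := raa_hyp hH (fun n => (re χ n : ℝ)) x U δ hU0 hUx hδ0.le (rqa_abs χ) hsum
  have htail := hT (fun n => (re χ n : ℝ)) L δ p U (p ^ 2) hU0
    ((hUx.trans hxp).trans (Nat.le_self_pow (by norm_num) p)) hδ0.le hsum (rqa_le q2 q1) hlim
  rw [hl2] at htail
  have hU4 : (U : ℝ) ≤ 2 * δ * x := by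
    have d2 : t ^ 65 ≤ δ * t ^ 66 := by rw [e66]; nlinarith
    have d3 : δ * t ^ 66 ≤ δ * x := mul_le_mul_of_nonneg_left hx1 hδ0.le
    linarith
  have hlog : Real.log x ≤ Real.log p := Real.log_le_log hx0 hxp'
  obtain ⟨T, hTe⟩ : ∃ T : ℝ, T = ∑ n ∈ Icc 1 U, (re χ n : ℝ) / n := ⟨_, rfl⟩
  simp only [← hTe] at hh htail
  obtain ⟨s, hs⟩ : ∃ s : ℝ, s = (p : ℝ) ^ (κ / 4) := ⟨_, rfl⟩
  have hs1 : 1 ≤ s := by rw [hs]; exact Real.one_le_rpow hp1 (by positivity)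
  have hls : Real.log p ≤ s / (κ / 4) := by
    rw [hs]; exact Real.log_le_rpow_div hp0.le (by positivity)
  rw [← hs] at h2
  have hss : 11 + 4 * Real.log p ≤ s * s := by
    have d1 : (11 + 4 / (κ / 4)) * s ≤ s * s := mul_le_mul_of_nonneg_right h2 (by linarith)
    have d2 : (11 + 4 / (κ / 4)) * s = 11 * s + 4 * (s / (κ / 4)) := by ring
    linarith
  have hfin : δ * (s * s) = (p : ℝ) ^ (-(κ / 2)) := by
    rw [hδ, hs, ← Real.rpow_add hp0, ← Real.rpow_add hp0]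
    congr 1
    ring
  have d1 : 2 * δ * x * (1 + Real.log x) ≤ 2 * δ * x * (1 + Real.log p) :=
    mul_le_mul_of_nonneg_left (by linarith) (by positivity)
  have d2 : |x * T - x * L| ≤ x * (δ * (2 + 2 * Real.log p) + 5 * δ) := by
    rw [← mul_sub, abs_mul, abs_of_pos hx0, abs_sub_comm]
    exact mul_le_mul_of_nonneg_left (by linarith) hx0.le
  have d3 : x * (δ * (11 + 4 * Real.log p)) ≤ x * (δ * (s * s)) :=
    mul_le_mul_of_nonneg_left (mul_le_mul_of_nonneg_left hss hδ0.le) hx0.le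
  have d4 := abs_sub_le (∑ n ∈ Icc 1 x, ∑ d ∈ n.divisors, (re χ d : ℝ)) (x * T) (x * L)
  have e : x * (δ * (11 + 4 * Real.log p)) =
      2 * δ * x + 2 * δ * x * (1 + Real.log p) + x * (δ * (2 + 2 * Real.log p) + 5 * δ) := by ring
  rw [← hfin]
  unfold rx
  linarith

end Pool.Agent.G42
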