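import Pool.Agent.MP_b5e119_nt.G42X.RQA

/-! Row TLBX: tails of a real character series. -/

namespace Pool.Agent.G42

open Finset Filter Topology Pool.Agent.G60
open Pool.Agent.G27 (re EX)

theorem tlbx_row : TLBX_s := by
  intro p _ χ β U V h2 h1 hβ hU hV
  obtain ⟨S, hS⟩ : ∃ S : ℕ → ℝ, ∀ V, S V =
    ∑ m ∈ Icc 1 V, (re χ m : ℝ) - ∑ m ∈ Icc 1 U, (re χ m : ℝ) := ⟨_, fun _ => rfl⟩
  have s1 : ∀ V, |S V| ≤ 2 * p := fun V => by
    have := rqa_le h2 h1 V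
    have := rqa_le h2 h1 U
    rw [hS]
    exact (abs_sub _ _).trans (by linarith)
  have key : |∑ n ∈ Icc 1 V, (re χ n : ℝ) * (n : ℝ) ^ (-β) -
      ∑ n ∈ Icc 1 U, (re χ n : ℝ) * (n : ℝ) ^ (-β) - S V * (V : ℝ) ^ (-β)| ≤
      2 * p * ((U : ℝ) ^ (-β) - (V : ℝ) ^ (-β)) := by
    induction V, hV using Nat.le_induction with
    | base => simp [hS]
    | succ V hV ih =>
      have d : ((V + 1 : ℕ) : ℝ) ^ (-β) ≤ (V : ℝ) ^ (-β) :=
        Real.rpow_le_rpow_of_nonpos (by exact_mod_cast hU.trans_le hV) (by simp) (by linarith)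
      have e : S (V + 1) = S V + re χ (V + 1) := by
        rw [hS, hS, sum_Icc_succ_top (by omega)]; ring
      have k : |S V * ((V : ℝ) ^ (-β) - ((V + 1 : ℕ) : ℝ) ^ (-β))| ≤
          2 * p * ((V : ℝ) ^ (-β) - ((V + 1 : ℕ) : ℝ) ^ (-β)) := by
        rw [abs_mul, abs_of_nonneg (sub_nonneg.2 d)]
        exact mul_le_mul_of_nonneg_right (s1 V) (sub_nonneg.2 d)
      rw [sum_Icc_succ_top (by omega), e]
      rw [abs_le] at ih k ⊢
      constructor <;> linarith [ih.1, ih.2, k.1, k.2]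
  have k : |S V * (V : ℝ) ^ (-β)| ≤ 2 * p * (V : ℝ) ^ (-β) := by
    have : 0 ≤ (V : ℝ) ^ (-β) := by positivity
    rw [abs_mul, abs_of_nonneg this]
    exact mul_le_mul_of_nonneg_right (s1 V) this
  rw [abs_le] at key k ⊢
  constructor <;> linarith [key.1, key.2, k.1, k.2]

end Pool.Agent.G42
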