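import Pool.Agent.MP_b5e119_nt.G42X.TOPL

/-! One exceptional primitive character, of large conductor and with a real zero near `1`. -/

namespace Pool.Agent.G42

open Finset Pool.Agent.G60 DirichletCharacter
open Pool.Agent.G27 (re EX re_coe)

def TOPZ_s : Prop := ∀ ε η : ℝ, 0 < ε → 0 < η → ∃ c : ℝ, 0 < c ∧ ∀ A : ℕ, ∃ X₀ : ℕ, ∀ X : ℕ,
  X₀ ≤ X → ∃ (q : ℕ) (_ : NeZero q) (ψ : DirichletCharacter ℂ q), ψ.IsPrimitive ∧ ψ ^ 2 = 1 ∧
    ∀ M N : ℕ, X ≤ M → M ≤ X ^ 2 → ε * M ≤ M.totient → 0 < N → M ∣ N →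
      ∀ e e' : ℤ, (e = 1 ∨ e = -1) → (e' = 1 ∨ e' = -1) → (cnt N e e' : ℝ) < c * M →
        Real.log X ^ A ≤ q ∧ q ∣ M ∧ ψ (-1) = -(e * e' : ℤ) ∧
          ∃ σ : ℝ, 1 - η / Real.log X ≤ σ ∧ σ < 1 ∧ LFunction ψ σ = 0

theorem topz_prim {N : ℕ} [NeZero N] {χ : Ch N} [NeZero χ.conductor] (h1 : χ ≠ 1) {σ : ℝ}
    (hσ : 0 < σ) (h : LFunction χ σ = 0) : LFunction χ.primitiveCharacter σ = 0 := by
  have p4 : χ.primitiveCharacter ≠ 1 := fun e => h1 (by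
    rw [← changeLevel_primitiveCharacter χ, e, map_one])
  rw [← changeLevel_primitiveCharacter χ, LFunction_changeLevel _ _ (Or.inl p4)] at h
  refine (mul_eq_zero.1 h).resolve_right (prod_ne_zero_iff.2 fun p hp e => ?_)
  have p2 : (1 : ℝ) < p := by exact_mod_cast (Nat.prime_of_mem_primeFactors hp).one_lt
  have a : ‖(p : ℂ) ^ (-(σ : ℂ))‖ < 1 := by
    rw [Complex.norm_natCast_cpow_of_pos (by exact_mod_cast zero_lt_one.trans p2)]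
    exact Real.rpow_lt_one_of_one_lt_of_neg p2 (by simpa using hσ)
  have b := mul_le_of_le_one_left (norm_nonneg ((p : ℂ) ^ (-(σ : ℂ))))
    (χ.primitiveCharacter.norm_le_one p)
  rw [← norm_mul, ← sub_eq_zero.1 e, norm_one] at b
  linarith

theorem topz_row (hR : G6X.REPN_s) (hM : MON_s) (hI : G6X.INV_s fun _ => True) (hS : SMC_s)
    (hZ : ZNDX_s) : TOPZ_s := by
  intro η ζ hη hζ
  obtain ⟨ε, hε, N₁, hR⟩ := hR η hη
  obtain ⟨δ₁, hδ₁, hS⟩ := hS η hη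
  obtain ⟨δ₂, hδ₂, N₄, hZ⟩ := hZ η ζ hη hζ
  obtain ⟨N₅, h5⟩ := Filter.eventually_atTop.1
    ((Real.tendsto_log_atTop.comp tendsto_natCast_atTop_atTop).eventually_gt_atTop ζ)
  obtain ⟨δ, hδ, d1, d2⟩ : ∃ δ : ℝ, 0 < δ ∧ δ ≤ δ₁ ∧ δ ≤ δ₂ :=
    ⟨_, lt_min hδ₁ hδ₂, min_le_left _ _, min_le_right _ _⟩
  obtain ⟨c, N₂, hc, hI⟩ := hI η (min ε δ) hη (lt_min hε hδ)
  refine ⟨c, hc, fun A => ?_⟩
  obtain ⟨N₃, hS⟩ := hS A
  refine ⟨N₁ + N₂ + N₃ + N₄ + N₅ + 1, fun X hX => ?_⟩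
  have key : ∀ M N : ℕ, X ≤ M → η * M ≤ M.totient → 0 < N → M ∣ N →
      ∀ e e' : ℤ, (e = 1 ∨ e = -1) → (e' = 1 ∨ e' = -1) → (cnt N e e' : ℝ) < c * M →
        ∃ (χ : Ch M) (σ : ℤ), χ ^ 2 = 1 ∧ χ ≠ 1 ∧ χ (-1) = -(e * e' : ℤ) ∧ (σ = 1 ∨ σ = -1) ∧
          (EX χ σ : ℝ) ≤ min ε δ * M := by
    rintro M N h1 h3 h4 ⟨d, rfl⟩ e e' he he' h
    have : NeZero M := ⟨by omega⟩
    have hl := lam_cases d
    have hm := hM M d (lam d * e) (lam d * e') (Nat.pos_of_mul_pos_left h4)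
    have hs : ∀ x : ℤ, lam d * (lam d * x) = x := fun x => by
      rcases hl with a | a <;> rw [a] <;> ring
    rw [hs, hs] at hm
    have := hI M (by omega) trivial h3 (lam d * e) (lam d * e')
      (by rcases hl with a | a <;> rcases he with b | b <;> rw [a, b] <;> norm_num)
      (by rcases hl with a | a <;> rcases he' with b | b <;> rw [a, b] <;> norm_num)
      (lt_of_le_of_lt (by exact_mod_cast hm) h)
    rwa [mul_mul_mul_comm, mul_assoc, hs] at this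
  have m1 : ∀ M : ℕ, min ε δ * M ≤ ε * M := fun M =>
    mul_le_mul_of_nonneg_right (min_le_left ε δ) (Nat.cast_nonneg M)
  have m2 : ∀ M : ℕ, min ε δ * M ≤ δ * M := fun M =>
    mul_le_mul_of_nonneg_right (min_le_right ε δ) (Nat.cast_nonneg M)
  by_cases hex : ∃ (M : ℕ) (χ : Ch M) (σ : ℤ), X ≤ M ∧ M ≤ X ^ 2 ∧ η * M ≤ M.totient ∧
      χ ^ 2 = 1 ∧ χ ≠ 1 ∧ (σ = 1 ∨ σ = -1) ∧ (EX χ σ : ℝ) ≤ min ε δ * M
  · obtain ⟨M₀, χ₀, σ₀, a1, a2, a3, a4, a5, a6, a7⟩ := hex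
    have : NeZero M₀ := ⟨by omega⟩
    obtain ⟨p1, p2, p3⟩ := G6X.page_prim a4 a5
    have : NeZero χ₀.conductor := ⟨by omega⟩
    have p4 : χ₀.primitiveCharacter ≠ 1 := fun e => a5 (by
      rw [← changeLevel_primitiveCharacter χ₀, e, map_one])
    have p5 := hS M₀ (by omega) a3 χ₀ _ χ₀.primitiveCharacter σ₀ a4 p3 p4 (fun n hn => by
      have := χ₀.primitiveCharacter_apply_of_isCoprime (a := (n : ℤ))
        (Nat.isCoprime_iff_coprime.2 hn)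
      rw [Int.cast_natCast, Int.cast_natCast] at this
      exact this.symm) a6
      ((a7.trans (m2 M₀)).trans (mul_le_mul_of_nonneg_right d1 (Nat.cast_nonneg _)))
    have p6 : Real.log X ^ A ≤ χ₀.conductor :=
      (pow_le_pow_left₀ (Real.log_natCast_nonneg X) (Real.log_le_log
        (Nat.cast_pos.2 (by omega)) (Nat.cast_le.2 a1)) A).trans p5
    have p7 : ∃ σ : ℝ, 1 - ζ / Real.log X ≤ σ ∧ σ < 1 ∧
        LFunction χ₀.primitiveCharacter σ = 0 := by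
      obtain ⟨σ, s1, s2, s3⟩ := hZ M₀ (by omega) a3 χ₀ σ₀ a4 a5 a6
        ((a7.trans (m2 M₀)).trans (mul_le_mul_of_nonneg_right d2 (Nat.cast_nonneg _)))
      have l1 : ζ < Real.log X := h5 X (by omega)
      have l2 : ζ / Real.log M₀ ≤ ζ / Real.log X := div_le_div_of_nonneg_left hζ.le (by linarith)
        (Real.log_le_log (Nat.cast_pos.2 (by omega)) (Nat.cast_le.2 a1))
      have l3 : ζ / Real.log X < 1 := (div_lt_one (by linarith)).2 l1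
      exact ⟨σ, by linarith, s2, topz_prim a5 (by linarith) s3⟩
    refine ⟨_, this, χ₀.primitiveCharacter, p2, p3,
      fun M N h1 h2 h4 h5 h6 e e' he he' h => ⟨p6, and_assoc.1 ⟨?_, p7⟩⟩⟩
    obtain ⟨χ, σ, b1, -, b3, b4, b5⟩ := key M N h1 h4 h5 h6 e e' he he' h
    have : NeZero M := ⟨by omega⟩
    rw [← b3]
    rcases le_total M₀ M with hle | hle
    · exact G6X.page_eq (hR M₀ M χ₀ χ σ₀ σ (by omega) hle
        (h2.trans (Nat.pow_le_pow_left a1 2)) a3 h4 a4 b1 a6 b4 (a7.trans (m1 M₀))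
        (b5.trans (m1 M)))
    · exact G6X.page_eq (hR M M₀ χ χ₀ σ σ₀ (by omega) hle
        (a2.trans (Nat.pow_le_pow_left h1 2)) h4 a3 b1 a4 b4 a6 (b5.trans (m1 M))
        (a7.trans (m1 M₀))).symm
  · obtain ⟨χ₀, a4, a5⟩ := G6X.page_ex
    obtain ⟨p1, p2, p3⟩ := G6X.page_prim a4 a5
    refine ⟨_, ⟨by omega⟩, χ₀.primitiveCharacter, p2, p3, fun M N h1 h2 h4 h5 h6 e e' he he' h => ?_⟩
    obtain ⟨χ, σ, b1, b2, -, b4, b5⟩ := key M N h1 h4 h5 h6 e e' he he' h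
    exact absurd ⟨M, χ, σ, h1, h2, h4, b1, b2, b4, b5⟩ hex

end Pool.Agent.G42
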