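import Pool.Agent.MP_b5e119_nt.G42X.Defs
import Pool.Agent.MP_b5e119_nt.G42.ZND

/-! Row ZNDX: closeness of `λ` to a real character forces a real zero near `1`. -/

namespace Pool.Agent.G42

open Finset Filter Topology Pool.Agent.G60
open Pool.Agent.G27 (re EX)

theorem zndx_cu {N : ℕ} {χ : Ch N} (h : χ ^ 2 = 1) : CU (fun n => lam n * re χ n) N := by
  refine ⟨fun n _ _ hn => ?_, fun a b ha hb _ => ?_⟩
  · rcases lam_cases n with e | e <;> rcases G27.re_unit h hn with e' | e' <;> simp [e, e']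
  · simp only [lam_mul ha.ne' hb.ne', G27.re_mul h]; ring

theorem zndx_ex {N : ℕ} {χ : Ch N} (h : χ ^ 2 = 1) (s : ℤ) :
    #{u ∈ UY N 0 | lam u * re χ u ≠ s} ≤ EX χ s := by
  unfold EX UY YY
  refine card_le_card fun u hu => ?_
  simp only [mem_filter, mem_Icc, pow_zero, Nat.div_one] at hu
  rw [mem_filter, mem_Ico]
  refine ⟨⟨hu.1.1.1, by omega⟩, hu.1.2, fun e => hu.2 ?_⟩
  rcases G27.re_unit h hu.1.2 with e' | e' <;> rw [e, e'] <;> ring

theorem zndx_mono {N : ℕ} (χ : Ch N) (h : ∀ n, 0 ≤ rx χ n) {x y : ℕ} (hxy : x ≤ y) :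
    ZX χ x ≤ ZX χ y :=
  sum_le_sum_of_subset_of_nonneg (Icc_subset_Icc_right hxy) fun n _ _ =>
    div_nonneg (h n) (Nat.cast_nonneg n)

theorem zndx_row (hSPT : SPTX_s) (hLID : LIDX_s) (hMER : MERX_s) (hRAS : RASX_s)
    (hHEC : HECX_s) (hLFN : LFNX_s) (hPOL : POLX_s) : ZNDX_s := by
  intro ε₀ η hε₀ hη
  obtain ⟨C, hC, hM⟩ := hMER
  obtain ⟨κ, hκ, p₁, hR⟩ := hRAS
  obtain ⟨H, hH, p₂, hE⟩ := hHEC η hη
  have l1 := Real.log_two_gt_d9
  obtain ⟨ε, hε, p₃, hS⟩ := hSPT ε₀ (Real.log 2 / (8 * H)) hε₀ (by positivity)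
  obtain ⟨p₄, h4⟩ := eventually_atTop.mp (znd_ev H κ hH hκ)
  obtain ⟨A₀, hA₀⟩ := exists_nat_ge (2 * (72 + 17 * C + 400 * (C * H)) + η + 22)
  refine ⟨ε, hε, max (max p₁ p₂) (max (max p₃ p₄) (2 ^ (200 * A₀))), ?_⟩
  intro p hp hp0 hφ χ s hq hχ hs hEx
  simp only [max_le_iff] at hp0
  obtain ⟨⟨q1, q2⟩, ⟨q3, q4⟩, q5⟩ := hp0
  by_contra hno
  push Not at hno
  have hpp : 0 < p := NeZero.pos p
  obtain ⟨r0, r1, rl⟩ := hLID p χ hq
  set a := aa p with ha
  have a1 : 200 * A₀ ≤ Nat.log 2 p := (Nat.le_log_iff_pow_le one_lt_two (by omega)).mpr q5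
  have a2 : A₀ ≤ a := by rw [ha, aa]; omega
  have a3 : 200 * a ≤ Nat.log 2 p := by rw [ha, aa]; omega
  have a4 : Nat.log 2 p + 1 ≤ 200 * (a + 1) := by rw [ha, aa]; omega
  have a5 : (A₀ : ℝ) ≤ a := by exact_mod_cast a2
  have cH : 0 < C * H := by positivity
  have a6 : (22 : ℝ) ≤ a := by linarith
  have a7 : 22 ≤ a := by exact_mod_cast a6
  have b1 : 2 ^ (200 * a) ≤ p :=
    (Nat.pow_le_pow_right two_pos a3).trans (Nat.pow_log_le_self 2 (by omega))
  have b2 : p < 2 ^ (200 * (a + 1)) :=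
    (Nat.lt_pow_succ_log_self one_lt_two p).trans_le (Nat.pow_le_pow_right two_pos a4)
  have b3 : 2 ^ (85 * a) < p := (Nat.pow_lt_pow_right one_lt_two (by omega)).trans_le b1
  have p0 : (0 : ℝ) < p := by exact_mod_cast (by omega : 0 < p)
  have c1 : 200 * (a : ℝ) * Real.log 2 ≤ Real.log p := by
    have := Real.log_le_log (by positivity) (show ((2 : ℝ) ^ (200 * a)) ≤ p by exact_mod_cast b1)
    rw [Real.log_pow] at this
    push_cast at this
    exact this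
  have c2 : Real.log p ≤ 200 * ((a : ℝ) + 1) * Real.log 2 := by
    have := Real.log_le_log p0 (show (p : ℝ) ≤ (2 : ℝ) ^ (200 * (a + 1)) by exact_mod_cast b2.le)
    rw [Real.log_pow] at this
    push_cast at this
    exact this
  obtain ⟨c3, c5, c6, c7, c8⟩ := znd_real a (Real.log 2) (Real.log p) η
    (72 + 17 * C + 400 * (C * H)) (by linarith) a6 hη (by positivity) (hA₀.trans a5) c1 c2
  have c4 : 0 < Real.log p := by linarith
  have β1 : 1 / 2 ≤ 1 - η / Real.log p := by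
    have : η / Real.log p ≤ 1 / 2 := by rw [div_le_iff₀ c4]; linarith
    linarith
  have β2 : 1 - η / Real.log p < 1 := by
    have : 0 < η / Real.log p := by positivity
    linarith
  obtain ⟨L', e1, t1⟩ := hLFN p χ _ hq hχ β1 (by linarith)
  have d1 := hPOL p χ _ hq hχ β1 β2 hno
  rw [e1, Complex.ofReal_re] at d1
  obtain ⟨L, -, t2⟩ := hLFN p χ 1 hq hχ (by norm_num) (by norm_num)
  simp only [Real.rpow_neg_one, ← div_eq_mul_inv] at t2
  have d2 := hE p q2 χ hq hχ L L' t2 t1 d1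
  have d3 : 1 ≤ ZX χ p := (show ZX χ 1 = 1 by simp [ZX, r1]).ge.trans (zndx_mono χ r0 hpp)
  have L0 : 0 < L := by
    by_contra h
    push Not at h
    have : H * L * Real.log p ≤ 0 :=
      mul_nonpos_of_nonpos_of_nonneg (mul_nonpos_of_nonneg_of_nonpos hH.le h) c4.le
    linarith
  have d4 : (p : ℝ) ^ (-κ) ≤ L := by
    have k0 : 0 < (p : ℝ) ^ κ := by positivity
    rw [Real.rpow_neg p0.le, inv_le_iff_one_le_mul₀ k0]
    have := mul_le_mul_of_nonneg_left (h4 p q4) L0.le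
    linarith
  have g1 : (p : ℝ) ^ (0.33 : ℝ) ≤ ((2 ^ (69 * a) : ℕ) : ℝ) := by
    rw [← Real.log_le_log_iff (by positivity) (by positivity), Real.log_rpow p0]
    push_cast
    rw [Real.log_pow]
    push_cast
    exact c5
  have g2 : 2 ^ (69 * a) ≤ 2 ^ (70 * a) := Nat.pow_le_pow_right two_pos (by omega)
  have g3 : 2 ^ (70 * a) ≤ 2 ^ (85 * a) := Nat.pow_le_pow_right two_pos (by omega)
  have g4 : 2 ^ (70 * a) / 2 ^ a = 2 ^ (69 * a) := by
    rw [Nat.pow_div (by omega) two_pos]; congr 1; omega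
  have lg : ∀ m n k : ℕ, m = n + k →
      Real.log (((2 ^ m : ℕ) : ℝ) / ((2 ^ n : ℕ) : ℝ)) = k * Real.log 2 := by
    rintro m n k rfl
    push_cast
    rw [pow_add, mul_div_cancel_left₀ _ (by positivity), Real.log_pow]
  have i1 := abs_le.mp (hR p q1 χ hq hχ L t2 _ _ (g1.trans (by exact_mod_cast g2)) g3 b3.le)
  have i2 := abs_le.mp (hR p q1 χ hq hχ L t2 _ _ g1 (g2.trans g3) b3.le)
  rw [lg _ _ (15 * a) (by omega)] at i1
  rw [lg _ _ (16 * a) (by omega)] at i2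
  have j1 := rl (2 ^ a) (2 ^ (70 * a)) (2 ^ (85 * a)) (by positivity)
    (Nat.pow_le_pow_right two_pos (by omega)) g3
  rw [g4] at j1
  obtain ⟨m1, m2⟩ := hM p χ (2 ^ a) hq (Nat.le_self_pow (by omega) 2) (by
    rw [← pow_mul]; exact b2.trans_le (Nat.pow_le_pow_right two_pos (by omega)))
  have m3 := m2 (2 ^ (85 * a))
  have s1 := hS _ p s q3 hφ (zndx_cu hq) hs ((Nat.cast_le.mpr (zndx_ex hq s)).trans hEx)
  have s2 : ∑ q ∈ Icc (2 ^ a) (2 ^ (85 * a)) with (q.Prime ∧ re χ q = 1), Real.log q / q ≤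
      Real.log 2 / (8 * H) * a := by
    refine le_trans (sum_le_sum_of_subset_of_nonneg (fun q hq => ?_) fun q _ _ =>
      div_nonneg (Real.log_natCast_nonneg q) (Nat.cast_nonneg q)) s1
    rw [mem_filter, mem_Icc] at hq
    rw [mem_filter, mem_Ico]
    refine ⟨⟨hq.1.1, lt_of_le_of_ne hq.1.2 fun h => ?_⟩, hq.2.1, fun h => ?_, ?_⟩
    · have := (h ▸ hq.2.1).eq_one_of_pow
      omega
    · have := G27.re_nonunit χ fun c => (Nat.Prime.coprime_iff_not_dvd hq.2.1).1 c h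
      omega
    · rw [lam_prime hq.2.1, hq.2.2]; norm_num
  have n1 : Real.log ((2 ^ a : ℕ) : ℝ) = a * Real.log 2 := by
    push_cast; rw [Real.log_pow]
  have n2 : Real.log ((2 ^ (70 * a) : ℕ) : ℝ) = 70 * (a * Real.log 2) := by
    push_cast; rw [Real.log_pow]; push_cast; ring
  rw [n1] at m1
  rw [n2] at j1
  push_cast at i1 i2
  have z0 : 0 ≤ ZX χ (2 ^ (85 * a)) :=
    sum_nonneg fun n _ => div_nonneg (r0 n) (Nat.cast_nonneg n)
  have z1 : ZX χ (2 ^ (85 * a)) ≤ H * L * (400 * (a * Real.log 2)) := by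
    refine (zndx_mono χ r0 b3.le).trans (d2.trans ?_)
    exact mul_le_mul_of_nonneg_left c6 (by positivity)
  refine znd_num (a * Real.log 2) C H L _ _ _ (2 * (Real.log 2 / (8 * H) * a)) _ _ L0 hC
    c7 c8 j1 (by linarith [i1.1]) m1
    (sub_nonneg.mpr (zndx_mono χ r0 (g2.trans g3))) (by linarith [i2.2]) (by linarith)
    (by positivity) (by field_simp; ring) z0 z1

end Pool.Agent.G42
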