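import Pool.Agent.MP_b5e119_nt.G42.BLR
import Pool.Agent.MP_b5e119_nt.G42.MAJ
import Pool.Agent.MP_b5e119_nt.G42.ZB
import Pool.Agent.MP_b5e119_nt.G42X.LIDX
import Pool.Agent.MP_b5e119_nt.G42X.MERX
import Pool.Agent.MP_b5e119_nt.G42X.Main
import Pool.Agent.MP_b5e119_nt.G42X.PAIRX
import Pool.Agent.MP_b5e119_nt.G42X.SCAX
import Pool.Agent.MP_b5e119_nt.G42X.SCBX
import Pool.Agent.MP_b5e119_nt.G42X.SIZ
import Pool.Agent.MP_b5e119_nt.G42X.SPTX
import Pool.Agent.MP_b5e119_nt.G27Z.HECX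
import Pool.Agent.MP_b5e119_nt.G27Z.LFNX
import Pool.Agent.MP_b5e119_nt.G27Z.POLX
import Pool.Agent.MP_b5e119_nt.G27Z.RAAX
import Pool.Agent.MP_b5e119_nt.G27Z.RASX
import Pool.Agent.MP_b5e119_nt.G27Z.TLBX
import Pool.Agent.MP_b5e119_nt.G27Z.TOPZ
import Pool.Agent.MP_b5e119_nt.G27Z.ZNDX

/-! Assembly of the form with a real zero. -/

namespace Pool.Agent.G42

open Pool.Agent.G60

theorem siz : SIZ_s := siz_row G27.uni_row G27.tau_row dya_row

theorem zndx : ZNDX_s :=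
  zndx_row (sptx_row dya_row maj_row (scax_row dya_row maj_row pairx_row siz)
      (scbx_row dya_row maj_row pairx_row siz) blr_row) lidx_row merx_row
    (rasx_row (raax_row hyp_row G27.burgg tail_row)) (hecx_row hyp_row lidx_row zb_row tlbx_row)
    lfnx_row (polx_row lfnx_row)

theorem topz : TOPZ_s :=
  topz_row (G6X.repn_row G94.dyp_row G27.tau_row G27.uni_row G27.burgg) mon_row
    (inv_row (fun i => @odx i) fun i => @strx i)
    (smc_row G94.dyp_row G94.rg_row G27.tau_row G27.uni_row) zndx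

end Pool.Agent.G42
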